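import Pool.Agent.Helper24.WH.Syn
import Pool.Agent.Helper79.WHM.All
import Pool.Agent.Helper79.WHM.Final

/-!
# The height of the Wadge hierarchy of the alternation-free mu-calculus on full binary trees is epsilon zero

Full positive answer to question Q1 of MP_76577a_lc. All definitions of the statement (trees, topology, formulas,
semantics, alternation-freeness, definable sets, Wadge order, height) are in the file `Pool/Agent/Helper24/WH/Syn.lean`.
-/

set_option autoImplicit false

namespace Pool.Agent.Results.MP_76577a_lc.HeightEpsilonZero

open Pool.Agent.Helper24.WH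

/-- For every finite set `P` of letters the strict Wadge order on the sets of full binary trees definable by alternation-free
formulas is well founded, and `ε₀` is the supremum over all finite `P` of the heights of these orders. -/
theorem result :
    (∀ (P : Type) [Finite P], WellFounded (wlt P)) ∧
    IsLUB {o : Ordinal.{0} | ∃ (P : Type) (_ : Finite P) (h : WellFounded (wlt P)), o = height P h}
      (Ordinal.epsilon 0) := by
  have hwf : ∀ (P : Type) [Finite P], WellFounded (wlt P) := fun P _ => (aUB P).choose
  refine ⟨hwf, ?_, ?_⟩
  · rintro o ⟨P, hP, h, rfl⟩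
    refine Ordinal.iSup_le (fun L => ?_)
    exact Order.succ_le_of_lt ((aUB P).choose_spec L)
  · intro b hb
    refine le_of_forall_lt (fun a ha => ?_)
    obtain ⟨P, hP, L, hL⟩ := Pool.Agent.Helper30.WL.lower a ha
    have h1 : height P (hwf P) ≤ b := hb ⟨P, hP, hwf P, rfl⟩
    refine lt_of_lt_of_le ?_ h1
    refine lt_of_lt_of_le (Order.lt_succ_of_le (hL (hwf P))) ?_
    exact Ordinal.le_iSup (fun L : {L : Set (Tre (Set P)) // Definable L} =>
      Order.succ ((hwf P).apply L).rank) L

end Pool.Agent.Results.MP_76577a_lc.HeightEpsilonZero
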